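import Pool.Agent.T2h26.TL.Stm

/-!
# Project TL (helper59): the slopes of the descendants as a simple random walk

Sums over the descendants of a node of a function of the slope do not depend on the sign array.
-/

set_option autoImplicit false

open MeasureTheory Set
open scoped ENNReal

namespace Pool.Agent.T2h59.TL

open R109.GT Pool.Agent.T2h26.TL

variable {R : Type*} [AddCommMonoid R]

/-- sums over an even interval -/
lemma sum_Ico_two (G : ℤ → R) (a b : ℤ) (hab : a ≤ b) :
    ∑ i ∈ Finset.Ico (2 * a) (2 * b), G i = ∑ i ∈ Finset.Ico a b, (G (2 * i) + G (2 * i + 1)) := by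
  induction b, hab using Int.leInduction with
  | base => simp
  | succ b hb ih =>
    have e1 : Finset.Ico a (b + 1) = insert b (Finset.Ico a b) := by
      ext x; simp only [Finset.mem_Ico, Finset.mem_insert]; omega
    have e2 : Finset.Ico (2 * a) (2 * (b + 1)) =
        insert (2 * b + 1) (insert (2 * b) (Finset.Ico (2 * a) (2 * b))) := by
      ext x; simp only [Finset.mem_Ico, Finset.mem_insert]; omega
    rw [e1, e2, Finset.sum_insert, Finset.sum_insert, Finset.sum_insert, ih]
    · abel
    · simp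
    · simp
    · simp only [Finset.mem_insert, Finset.mem_Ico]; omega

lemma ds_zero (j : ℤ) : ds 0 j = {j} := by
  ext x; simp only [ds, Finset.mem_Ico, Finset.mem_singleton, pow_zero]; omega

/-- the descendants, one level further -/
lemma sum_ds_succ (G : ℤ → R) (t : ℕ) (j : ℤ) :
    ∑ i ∈ ds (t + 1) j, G i = ∑ i ∈ ds t j, (G (2 * i) + G (2 * i + 1)) := by
  have h := sum_Ico_two G (2 ^ t * j) (2 ^ t * (j + 1)) (by
    have : (0 : ℤ) < 2 ^ t := by positivity
    nlinarith)
  unfold ds
  rw [← h]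
  congr 2 <;> ring

/-- the descendants, `a` levels and then `b` levels further -/
lemma sum_ds_add (G : ℤ → R) (a b : ℕ) (j : ℤ) :
    ∑ i ∈ ds (a + b) j, G i = ∑ i' ∈ ds a j, ∑ i ∈ ds b i', G i := by
  induction b generalizing G with
  | zero => simp [ds_zero]
  | succ b ih =>
    rw [← add_assoc, sum_ds_succ, ih]
    refine Finset.sum_congr rfl fun i _ => ?_
    rw [sum_ds_succ]

lemma card_ds (t : ℕ) (j : ℤ) : (ds t j).card = 2 ^ t := by
  have h : (2 : ℤ) ^ t * (j + 1) - 2 ^ t * j = ((2 ^ t : ℕ) : ℤ) := by push_cast; ring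
  rw [ds, Int.card_Ico, h, Int.toNat_natCast]

lemma nd_eq (n : ℕ) : nd n = ds n 0 := by simp [nd, ds]

lemma slope_two (w : ℕ → ℤ → ℤ) (n : ℕ) (i : ℤ) :
    slope w (n + 1) (2 * i) = slope w n i + w n i := by
  have h1 : 2 * i / 2 = i := by omega
  have h2 : 2 * i % 2 = 0 := by omega
  simp [R109.GT.slope, h1]

lemma slope_two_add_one (w : ℕ → ℤ → ℤ) (n : ℕ) (i : ℤ) :
    slope w (n + 1) (2 * i + 1) = slope w n i - w n i := by
  have h1 : (2 * i + 1) / 2 = i := by omega
  have h2 : ¬ (2 * i + 1) % 2 = 0 := by omega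
  simp only [R109.GT.slope, h1, h2, if_false]
  ring

lemma val_two (w : ℕ → ℤ → ℤ) (n : ℕ) (i : ℤ) :
    val w (n + 1) (2 * i) = 2 * val w n i := by
  have h1 : 2 * i / 2 = i := by omega
  simp [val, h1]

lemma val_two_add_one (w : ℕ → ℤ → ℤ) (n : ℕ) (i : ℤ) :
    val w (n + 1) (2 * i + 1) = 2 * val w n i + slope w n i + w n i := by
  have h1 : (2 * i + 1) / 2 = i := by omega
  have h2 : ¬ (2 * i + 1) % 2 = 0 := by omega
  simp only [val, h1, h2, if_false]
  ring

/-- the walk operator -/
def T (F : ℤ → R) (s : ℤ) : R := F (s + 1) + F (s - 1)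

/-- sums over the descendants of a function of the slope do not depend on the sign array -/
lemma sum_ds_slope {w : ℕ → ℤ → ℤ} (hw : Sgn w) (F : ℤ → R) (n t : ℕ) (j : ℤ) :
    ∑ i ∈ ds t j, F (slope w (n + t) i) = (T^[t] F) (slope w n j) := by
  induction t generalizing F with
  | zero => simp [ds_zero]
  | succ t ih =>
    rw [Function.iterate_succ_apply, ← ih, sum_ds_succ]
    refine Finset.sum_congr rfl fun i _ => ?_
    rw [← add_assoc, slope_two, slope_two_add_one, T]
    rcases hw (n + t) i with h | h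
    · rw [h]
    · rw [h, add_comm]; congr 2

/-- the walk is symmetric -/
lemma T_iter_reflect (F G : ℤ → R) (s : ℤ) (h : ∀ x, F (s + x) = G (s - x)) (t : ℕ) :
    ∀ x, (T^[t] F) (s + x) = (T^[t] G) (s - x) := by
  induction t generalizing F G with
  | zero => exact h
  | succ t ih =>
    rw [Function.iterate_succ_apply, Function.iterate_succ_apply]
    refine ih _ _ fun x => ?_
    have h1 := h (x + 1)
    have h2 := h (x - 1)
    rw [T, T, add_assoc, h1, show s + x - 1 = s + (x - 1) by ring, h2, add_comm]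
    congr 2 <;> ring

lemma T_iter_symm (F : ℤ → R) (s : ℤ) (t : ℕ) :
    (T^[t] F) s = (T^[t] (fun x => F (2 * s - x))) s := by
  have h := T_iter_reflect F (fun x => F (2 * s - x)) s (fun x => by
    show F (s + x) = F (2 * s - (s - x)); congr 1; ring) t 0
  simpa using h

/-- second moment -/
lemma T_iter_sq (s : ℤ) (t : ℕ) : ∀ (c d : ℤ) (x : ℤ),
    (T^[t] (fun x : ℤ => c * (x - s) ^ 2 + d)) x = (c * ((x - s) ^ 2 + t) + d) * 2 ^ t := by
  induction t with
  | zero => intro c d x; simp
  | succ t ih =>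
    intro c d x
    rw [Function.iterate_succ_apply]
    have e : T (fun x : ℤ => c * (x - s) ^ 2 + d) =
        (fun x : ℤ => (2 * c) * (x - s) ^ 2 + (2 * c + 2 * d)) := by
      funext x; simp only [T]; ring
    rw [e, ih]; push_cast; ring

/-- fourth moment -/
lemma T_iter_four (s : ℤ) (t : ℕ) : ∀ (a c d : ℤ) (x : ℤ),
    (T^[t] (fun x : ℤ => a * (x - s) ^ 4 + c * (x - s) ^ 2 + d)) x =
      (a * ((x - s) ^ 4 + 6 * t * (x - s) ^ 2 + 3 * t ^ 2 - 2 * t) +
        c * ((x - s) ^ 2 + t) + d) * 2 ^ t := by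
  induction t with
  | zero => intro a c d x; simp
  | succ t ih =>
    intro a c d x
    rw [Function.iterate_succ_apply]
    have e : T (fun x : ℤ => a * (x - s) ^ 4 + c * (x - s) ^ 2 + d) =
        (fun x : ℤ => (2 * a) * (x - s) ^ 4 + (12 * a + 2 * c) * (x - s) ^ 2 +
          (2 * a + 2 * c + 2 * d)) := by
      funext x; simp only [T]; ring
    rw [e, ih]; push_cast; ring

/-- binomial formula -/
lemma T_iter_choose (F : ℤ → ℤ) (t : ℕ) : ∀ s : ℤ,
    (T^[t] F) s = ∑ k ∈ Finset.range (t + 1), (t.choose k : ℤ) * F (s + t - 2 * k) := by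
  induction t generalizing F with
  | zero => intro s; simp
  | succ t ih =>
    intro s
    rw [Function.iterate_succ_apply, ih]
    rw [Finset.sum_range_succ' _ (t + 1)]
    have e1 : ∀ k ∈ Finset.range (t + 1), ((t + 1).choose (k + 1) : ℤ) *
        F (s + ((t + 1 : ℕ) : ℤ) - 2 * ((k + 1 : ℕ) : ℤ)) =
        (t.choose k : ℤ) * F (s + t - 2 * k - 1) + (t.choose (k + 1) : ℤ) *
          F (s + t - 2 * ((k + 1 : ℕ) : ℤ) + 1) := by
      intro k _
      rw [Nat.choose_succ_succ]
      push_cast
      rw [add_mul]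
      congr 2
      · congr 1; ring
      · congr 1; ring
    rw [Finset.sum_congr rfl e1, Finset.sum_add_distrib]
    have e2 : ∑ k ∈ Finset.range (t + 1), (t.choose k : ℤ) * T F (s + t - 2 * k) =
        ∑ k ∈ Finset.range (t + 1), (t.choose k : ℤ) * F (s + t - 2 * k + 1) +
        ∑ k ∈ Finset.range (t + 1), (t.choose k : ℤ) * F (s + t - 2 * k - 1) := by
      rw [← Finset.sum_add_distrib]
      refine Finset.sum_congr rfl fun k _ => ?_
      rw [T]; ring
    rw [e2]
    have e3 : ∑ k ∈ Finset.range (t + 1), (t.choose k : ℤ) * F (s + t - 2 * k + 1) =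
        ∑ k ∈ Finset.range (t + 1), (t.choose (k + 1) : ℤ) *
          F (s + t - 2 * ((k + 1 : ℕ) : ℤ) + 1) + F (s + t + 1) := by
      have h := Finset.sum_range_succ' (fun k : ℕ => (t.choose k : ℤ) *
        F (s + t - 2 * (k : ℤ) + 1)) (t + 1)
      rw [Finset.sum_range_succ] at h
      simp only [Nat.choose_succ_self, Nat.cast_zero, zero_mul, add_zero, Nat.choose_zero_right,
        Nat.cast_one, one_mul, mul_zero, sub_zero] at h
      exact h
    rw [e3]
    simp only [Nat.choose_zero_right, Nat.cast_one, one_mul, Nat.cast_zero, mul_zero, sub_zero]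
    push_cast
    rw [show s + ((t : ℤ) + 1) = s + t + 1 by ring]
    ring

/-- the slopes are at most the level -/
lemma abs_slope_le {w : ℕ → ℤ → ℤ} (hw : Sgn w) (n : ℕ) (j : ℤ) : |slope w n j| ≤ n := by
  induction n generalizing j with
  | zero => simp [R109.GT.slope]
  | succ n ih =>
    have h := ih (j / 2)
    rw [abs_le] at h ⊢
    simp only [R109.GT.slope]
    rcases hw n (j / 2) with h1 | h1 <;> rw [h1] <;> split_ifs <;> push_cast <;> omega

end Pool.Agent.T2h59.TL
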